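import Mathlib

/-!
# Planar graphs

`IsPlanar G` says that `G` can be drawn in the plane: distinct points for the vertices, simple arcs
for the edges, with disjoint interiors which contain no vertex.

`isPlanar_of_book`: a graph with a two-page book embedding is planar.
-/

set_option autoImplicit false

open Finset

namespace Pool.Agent.V11135

/-- `G` is planar: there are distinct points `p v` of the plane for the vertices and, for adjacent
`u`, `v`, a simple arc `γ u v` from `p u` to `p v`, no interior point of which is a vertex; the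
interiors of the arcs of two different edges are disjoint. -/
def IsPlanar {V : Type} (G : SimpleGraph V) : Prop :=
  ∃ (p : V → ℝ × ℝ) (γ : V → V → ℝ → ℝ × ℝ), Function.Injective p ∧
    (∀ u v, G.Adj u v → ContinuousOn (γ u v) (Set.Icc 0 1) ∧ Set.InjOn (γ u v) (Set.Icc 0 1) ∧
      γ u v 0 = p u ∧ γ u v 1 = p v ∧ ∀ t ∈ Set.Ioo (0 : ℝ) 1, ∀ w, γ u v t ≠ p w) ∧
    ∀ u v x y, G.Adj u v → G.Adj x y → s(u, v) ≠ s(x, y) →
      ∀ t ∈ Set.Ioo (0 : ℝ) 1, ∀ t' ∈ Set.Ioo (0 : ℝ) 1, γ u v t ≠ γ x y t'

/-- Lexicographic order on triples. -/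
def lt3 (a b : ℕ × ℕ × ℕ) : Prop :=
  a.1 < b.1 ∨ (a.1 = b.1 ∧ (a.2.1 < b.2.1 ∨ (a.2.1 = b.2.1 ∧ a.2.2 < b.2.2)))

lemma lt3_irrefl (a : ℕ × ℕ × ℕ) : ¬ lt3 a a := by
  unfold lt3; omega

lemma lt3_trans {a b c : ℕ × ℕ × ℕ} (h : lt3 a b) (h' : lt3 b c) : lt3 a c := by
  unfold lt3 at *; omega

lemma lt3_trichotomy (a b : ℕ × ℕ × ℕ) : lt3 a b ∨ a = b ∨ lt3 b a := by
  obtain ⟨a1, a2, a3⟩ := a
  obtain ⟨b1, b2, b3⟩ := b
  simp only [lt3, Prod.mk.injEq]
  omega

/-- Positions on a line. -/
lemma exists_pos {V : Type} [Fintype V] (κ : V → ℕ × ℕ × ℕ) (hκ : Function.Injective κ) :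
    ∃ pos : V → ℝ, Function.Injective pos ∧ ∀ u v, pos u < pos v → lt3 (κ u) (κ v) := by
  classical
  let f : V → ℕ := fun v => (univ.filter fun w => lt3 (κ w) (κ v)).card
  have h1 : ∀ u v, lt3 (κ u) (κ v) → f u < f v := by
    intro u v h
    refine card_lt_card ((Finset.ssubset_iff_of_subset ?_).mpr ⟨u, ?_, ?_⟩)
    · intro w hw
      exact mem_filter.mpr ⟨mem_univ _, lt3_trans (mem_filter.mp hw).2 h⟩
    · exact mem_filter.mpr ⟨mem_univ _, h⟩
    · intro h'
      exact lt3_irrefl _ (mem_filter.mp h').2
  refine ⟨fun v => (f v : ℝ), ?_, ?_⟩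
  · intro u v huv
    have h0 : ((f u : ℕ) : ℝ) = ((f v : ℕ) : ℝ) := huv
    have huv' : f u = f v := by exact_mod_cast h0
    rcases lt3_trichotomy (κ u) (κ v) with h | h | h
    · exact absurd (h1 u v h) (by omega)
    · exact hκ h
    · exact absurd (h1 v u h) (by omega)
  · intro u v huv
    have h0 : ((f u : ℕ) : ℝ) < ((f v : ℕ) : ℝ) := huv
    have huv' : f u < f v := by exact_mod_cast h0
    rcases lt3_trichotomy (κ u) (κ v) with h | h | h
    · exact h
    · rw [hκ h] at huv'
      exact absurd huv' (lt_irrefl _)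
    · exact absurd (h1 v u h) (by omega)

/-- Two half circles over nested or disjoint intervals do not meet. -/
lemma circles {a b c d X : ℝ} (ha : a < X) (hb : X < b) (hc : c < X) (hd : X < d)
    (h : (X - a) * (b - X) = (X - c) * (d - X)) (h1 : a < c → c < b → b < d → False)
    (h2 : c < a → a < d → d < b → False) : a = c ∧ b = d := by
  rcases lt_trichotomy a c with hac | hac | hac
  · exfalso
    by_cases hbd : b < d
    · exact h1 hac (by linarith) hbd
    · push Not at hbd
      have h3 : (X - c) * (d - X) < (X - a) * (b - X) := by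
        have h4 : (X - c) * (d - X) ≤ (X - c) * (b - X) :=
          mul_le_mul_of_nonneg_left (by linarith) (by linarith)
        have h5 : (X - c) * (b - X) < (X - a) * (b - X) :=
          mul_lt_mul_of_pos_right (by linarith) (by linarith)
        linarith
      linarith
  · refine ⟨hac, ?_⟩
    rw [hac] at h
    have := mul_left_cancel₀ (by linarith : X - c ≠ 0) h
    linarith
  · exfalso
    by_cases hbd : d < b
    · exact h2 hac (by linarith) hbd
    · push Not at hbd
      have h3 : (X - a) * (b - X) < (X - c) * (d - X) := by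
        have h4 : (X - a) * (b - X) ≤ (X - a) * (d - X) :=
          mul_le_mul_of_nonneg_left (by linarith) (by linarith)
        have h5 : (X - a) * (d - X) < (X - c) * (d - X) :=
          mul_lt_mul_of_pos_right (by linarith) (by linarith)
        linarith
      linarith

/-- A graph with a two-page book embedding is planar.  The vertices lie on the spine in the order
given by the injective function `κ`, the pages are the edges with and without `up`, and no two edges
of one page cross. -/
theorem isPlanar_of_book {V : Type} [Fintype V] (G : SimpleGraph V) (κ : V → ℕ × ℕ × ℕ)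
    (hκ : Function.Injective κ) (up : V → V → Prop) (hup : ∀ a b, up a b ↔ up b a)
    (h : ∀ a b c d, G.Adj a b → G.Adj c d → (up a b ↔ up c d) → lt3 (κ a) (κ c) →
      lt3 (κ c) (κ b) → lt3 (κ b) (κ d) → False) : IsPlanar G := by
  classical
  obtain ⟨pos, hinj, hpos⟩ := exists_pos κ hκ
  let σ : V → V → ℝ := fun u v => if up u v then 1 else -1
  have hσ : ∀ u v, σ u v = 1 ∨ σ u v = -1 := by
    intro u v
    by_cases hu : up u v
    · exact Or.inl (if_pos hu)
    · exact Or.inr (if_neg hu)
  let γ : V → V → ℝ → ℝ × ℝ := fun u v t =>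
    (pos u + t * (pos v - pos u), σ u v * (|pos v - pos u| * √(t * (1 - t))))
  -- the height of the arc
  have hpos' : ∀ u v, G.Adj u v → ∀ t ∈ Set.Ioo (0 : ℝ) 1,
      0 < |pos v - pos u| * √(t * (1 - t)) := by
    intro u v huv t ht
    have h1 : pos v ≠ pos u := fun h' => huv.ne (hinj h').symm
    have h2 : 0 < |pos v - pos u| := abs_pos.mpr (sub_ne_zero.mpr h1)
    have h3 : 0 < √(t * (1 - t)) := Real.sqrt_pos.mpr (mul_pos ht.1 (by linarith [ht.2]))
    exact mul_pos h2 h3
  have hsq : ∀ u v, ∀ t ∈ Set.Ioo (0 : ℝ) 1, (|pos v - pos u| * √(t * (1 - t))) ^ 2 =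
      (pos u + t * (pos v - pos u) - pos u) * (pos v - (pos u + t * (pos v - pos u))) := by
    intro u v t ht
    rw [mul_pow, sq_abs, Real.sq_sqrt (mul_nonneg ht.1.le (by linarith [ht.2]))]
    ring
  refine ⟨fun v => (pos v, 0), γ, ?_, ?_, ?_⟩
  · intro u v huv
    exact hinj (Prod.mk.inj huv).1
  · intro u v huv
    have hne : pos v - pos u ≠ 0 := sub_ne_zero.mpr fun h' => huv.ne (hinj h').symm
    refine ⟨?_, ?_, ?_, ?_, ?_⟩
    · apply Continuous.continuousOn
      exact (continuous_const.add (continuous_id.mul continuous_const)).prodMk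
        (continuous_const.mul (continuous_const.mul
          (Real.continuous_sqrt.comp (continuous_id.mul (continuous_const.sub continuous_id)))))
    · intro s _ t _ hst
      have h1 := (Prod.mk.inj hst).1
      have h2 : s * (pos v - pos u) = t * (pos v - pos u) := by linarith
      exact mul_right_cancel₀ hne h2
    · simp [γ]
    · simp [γ]
    · intro t ht w hw
      have h1 : σ u v * (|pos v - pos u| * √(t * (1 - t))) = 0 := (Prod.mk.inj hw).2
      have h2 := hpos' u v huv t ht
      rcases hσ u v with h3 | h3 <;> rw [h3] at h1 <;> linarith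
  · intro u v x y huv hxy hne t ht t' ht' heq
    obtain ⟨h1, h2⟩ := Prod.mk.inj heq
    have h3 := hpos' u v huv t ht
    have h4 := hpos' x y hxy t' ht'
    have hs : σ u v = σ x y := by
      rcases hσ u v with h5 | h5 <;> rcases hσ x y with h6 | h6 <;> rw [h5, h6] at h2 <;>
        rw [h5, h6]
      · exfalso; linarith
      · exfalso; linarith
    have hupe : up u v ↔ up x y := by
      by_cases hu : up u v <;> by_cases hx : up x y
      · exact iff_of_true hu hx
      · exfalso
        have h5 : σ u v = 1 := if_pos hu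
        have h6 : σ x y = -1 := if_neg hx
        rw [h5, h6] at hs
        linarith
      · exfalso
        have h5 : σ u v = -1 := if_neg hu
        have h6 : σ x y = 1 := if_pos hx
        rw [h5, h6] at hs
        linarith
      · exact iff_of_false hu hx
    have hh : |pos v - pos u| * √(t * (1 - t)) = |pos y - pos x| * √(t' * (1 - t')) := by
      rcases hσ u v with h5 | h5
      · rw [← hs, h5] at h2; linarith
      · rw [← hs, h5] at h2; linarith
    have hprod : (|pos v - pos u| * √(t * (1 - t))) ^ 2 =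
        (|pos y - pos x| * √(t' * (1 - t'))) ^ 2 := by rw [hh]
    rw [hsq u v t ht, hsq x y t' ht'] at hprod
    set X := pos u + t * (pos v - pos u) with hX
    have hX' : pos x + t' * (pos y - pos x) = X := h1.symm
    rw [hX'] at hprod
    have hne' : ∀ a b, G.Adj a b → pos a ≠ pos b := fun a b hab h' => hab.ne (hinj h')
    -- the claim for sorted ends
    have key : ∀ a b c d, G.Adj a b → G.Adj c d → (up a b ↔ up c d) → pos a < X → X < pos b →
        pos c < X → X < pos d → (X - pos a) * (pos b - X) = (X - pos c) * (pos d - X) →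
        a = c ∧ b = d := by
      intro a b c d hab hcd hud ha hb hc hd hp
      obtain ⟨h7, h8⟩ := circles ha hb hc hd hp
        (fun p q r => h a b c d hab hcd hud (hpos _ _ p) (hpos _ _ q) (hpos _ _ r))
        (fun p q r => h c d a b hcd hab hud.symm (hpos _ _ p) (hpos _ _ q) (hpos _ _ r))
      exact ⟨hinj h7, hinj h8⟩
    have between : ∀ a b : ℝ, ∀ s ∈ Set.Ioo (0 : ℝ) 1, a < b →
        a < a + s * (b - a) ∧ a + s * (b - a) < b := by
      intro a b s hs hab
      constructor
      · nlinarith [hs.1]
      · nlinarith [hs.2]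
    have between' : ∀ a b : ℝ, ∀ s ∈ Set.Ioo (0 : ℝ) 1, b < a →
        b < a + s * (b - a) ∧ a + s * (b - a) < a := by
      intro a b s hs hab
      constructor
      · nlinarith [hs.2]
      · nlinarith [hs.1]
    rcases lt_or_gt_of_ne (hne' u v huv) with huv' | huv' <;>
      rcases lt_or_gt_of_ne (hne' x y hxy) with hxy' | hxy'
    · obtain ⟨p1, p2⟩ := between _ _ t ht huv'
      obtain ⟨q1, q2⟩ := between _ _ t' ht' hxy'
      rw [← hX] at p1 p2
      rw [hX'] at q1 q2
      obtain ⟨h7, h8⟩ := key u v x y huv hxy hupe p1 p2 q1 q2 hprod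
      exact hne (by rw [h7, h8])
    · obtain ⟨p1, p2⟩ := between _ _ t ht huv'
      obtain ⟨q1, q2⟩ := between' _ _ t' ht' hxy'
      rw [← hX] at p1 p2
      rw [hX'] at q1 q2
      obtain ⟨h7, h8⟩ := key u v y x huv hxy.symm (hupe.trans (hup x y)) p1 p2 q1 q2
        (by rw [hprod]; ring)
      exact hne (by rw [h7, h8]; exact Sym2.eq_swap)
    · obtain ⟨p1, p2⟩ := between' _ _ t ht huv'
      obtain ⟨q1, q2⟩ := between _ _ t' ht' hxy'
      rw [← hX] at p1 p2
      rw [hX'] at q1 q2
      obtain ⟨h7, h8⟩ := key v u x y huv.symm hxy ((hup v u).trans hupe) p1 p2 q1 q2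
        (by rw [← hprod]; ring)
      exact hne (by rw [h7, h8]; exact Sym2.eq_swap)
    · obtain ⟨p1, p2⟩ := between' _ _ t ht huv'
      obtain ⟨q1, q2⟩ := between' _ _ t' ht' hxy'
      rw [← hX] at p1 p2
      rw [hX'] at q1 q2
      obtain ⟨h7, h8⟩ := key v u y x huv.symm hxy.symm
        ((hup v u).trans (hupe.trans (hup x y))) p1 p2 q1 q2
        (by
          have : (X - pos v) * (pos u - X) = (X - pos u) * (pos v - X) := by ring
          rw [this, hprod]
          ring)
      exact hne (by rw [h7, h8])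

end Pool.Agent.V11135
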