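import Mathlib
import Pool.Agent.V11135.PlanarBook

/-!
# Colourings with distance-1 and distance-2 colour classes

Definitions and common lemmas for MP_dc87a5_co.
-/

set_option autoImplicit false

open Finset

namespace Pool.Agent.V11135

section Defs

variable {V : Type}

/-- `S` is independent. -/
def Indep (G : SimpleGraph V) (S : Set V) : Prop := ∀ u ∈ S, ∀ v ∈ S, ¬ G.Adj u v

/-- `S` is 2-independent: two distinct vertices of `S` have distance at least `3`. -/
def TwoIndep (G : SimpleGraph V) (S : Set V) : Prop := ∀ u ∈ S, ∀ v ∈ S, u ≠ v → 3 ≤ G.edist u v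

/-- `G` is `(a, b)`-colourable: its vertices can be partitioned into at most `a` independent sets
and at most `b` 2-independent sets. -/
def Colourable (G : SimpleGraph V) (a b : ℕ) : Prop :=
  ∃ f : V → Fin a ⊕ Fin b, (∀ i, Indep G {v | f v = Sum.inl i}) ∧
    ∀ j, TwoIndep G {v | f v = Sum.inr j}

/-- `ex_k(P_g)(n)`: the least `c` such that every planar graph with `n` vertices and girth at least
`g` is `(k, c)`-colourable. -/
noncomputable def exk (k g n : ℕ) : ℕ :=
  sInf {c | ∀ (V : Type) [Fintype V], Fintype.card V = n → ∀ G : SimpleGraph V,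
    IsPlanar G → (g : ℕ∞) ≤ G.egirth → Colourable G k c}

end Defs

section Weak

variable {V : Type}

/-- What is used of a `(2, c)`-colouring. -/
def Weak (G : SimpleGraph V) (c : ℕ) (f : V → Fin 2 ⊕ Fin c) : Prop :=
  (∀ u v i, G.Adj u v → f u = Sum.inl i → f v = Sum.inl i → False) ∧
  ∀ u v w j, u ≠ v → G.Adj u w → G.Adj v w → f u = Sum.inr j → f v = Sum.inr j → False

lemma weak_of_colourable (G : SimpleGraph V) (c : ℕ) (h : Colourable G 2 c) :
    ∃ f, Weak G c f := by
  obtain ⟨f, h1, h2⟩ := h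
  refine ⟨f, fun u v i huv hu hv => h1 i u hu v hv huv, ?_⟩
  intro u v w j huv huw hvw hu hv
  have h3 := h2 j u hu v hv huv
  have h4 := G.edist_le (SimpleGraph.Walk.cons huw (SimpleGraph.Walk.cons hvw.symm
    SimpleGraph.Walk.nil))
  have h5 : (3 : ℕ∞) ≤ 2 := h3.trans h4
  exact absurd h5 (by decide)

lemma Weak.mono {G : SimpleGraph V} {c d : ℕ} (hcd : c ≤ d) {f : V → Fin 2 ⊕ Fin c}
    (h : Weak G c f) : ∃ f, Weak G d f := by
  refine ⟨fun v => Sum.map id (Fin.castLE hcd) (f v), ?_, ?_⟩
  · intro u v i huv hu hv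
    replace hu : Sum.map id (Fin.castLE hcd) (f u) = Sum.inl i := hu
    replace hv : Sum.map id (Fin.castLE hcd) (f v) = Sum.inl i := hv
    rcases hfu : f u with a | a
    · rcases hfv : f v with b | b
      · rw [hfu] at hu
        rw [hfv] at hv
        have h1 : a = i := Sum.inl_injective hu
        have h2 : b = i := Sum.inl_injective hv
        exact h.1 u v i huv (by rw [hfu, h1]) (by rw [hfv, h2])
      · rw [hfv] at hv
        exact absurd hv (by simp)
    · rw [hfu] at hu
      exact absurd hu (by simp)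
  · intro u v w j huv huw hvw hu hv
    replace hu : Sum.map id (Fin.castLE hcd) (f u) = Sum.inr j := hu
    replace hv : Sum.map id (Fin.castLE hcd) (f v) = Sum.inr j := hv
    rcases hfu : f u with a | a
    · rw [hfu] at hu
      exact absurd hu (by simp)
    · rcases hfv : f v with b | b
      · rw [hfv] at hv
        exact absurd hv (by simp)
      · rw [hfu] at hu
        rw [hfv] at hv
        have h1 : Fin.castLE hcd a = j := Sum.inr_injective hu
        have h2 : Fin.castLE hcd b = j := Sum.inr_injective hv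
        have hab : a = b := Fin.castLE_injective hcd (h1.trans h2.symm)
        exact h.2 u v w a huv huw hvw hfu (by rw [hfv, hab])

lemma Weak.load {G : SimpleGraph V} {c : ℕ} {f : V → Fin 2 ⊕ Fin c} (h : Weak G c f) {ι : Type}
    [Fintype ι] (g : ι → V) (hg : Function.Injective g) (w : V) (hadj : ∀ i, G.Adj (g i) w)
    (S : Finset ι) (hS : ∀ i ∈ S, ∃ j, f (g i) = Sum.inr j) : S.card ≤ c := by
  classical
  by_contra hcon
  push Not at hcon
  have h1 : ∀ i : ι, ∃ j : Fin c, i ∈ S → f (g i) = Sum.inr j := by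
    intro i
    by_cases hi : i ∈ S
    · obtain ⟨j, hj⟩ := hS i hi
      exact ⟨j, fun _ => hj⟩
    · have hc : 0 < S.card := by omega
      obtain ⟨i', hi'⟩ := card_pos.mp hc
      obtain ⟨j, _⟩ := hS i' hi'
      exact ⟨j, fun h' => absurd h' hi⟩
  choose col hcol using h1
  obtain ⟨i, hi, i', hi', hne, heq⟩ := exists_ne_map_eq_of_card_lt_of_maps_to
    (s := S) (t := (univ : Finset (Fin c))) (by rw [card_univ, Fintype.card_fin]; exact hcon)
    (f := col) (fun i _ => mem_univ _)
  exact h.2 (g i) (g i') w (col i) (fun h' => hne (hg h')) (hadj i) (hadj i') (hcol i hi)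
    (heq ▸ hcol i' hi')

lemma Weak.bundle {G : SimpleGraph V} {c : ℕ} {f : V → Fin 2 ⊕ Fin c} (h : Weak G c f)
    (v w : V) (u x : Fin (2 * c + 1) → V) (hu : Function.Injective u)
    (hx : Function.Injective x) (h1 : ∀ j, G.Adj (u j) v) (h2 : ∀ j, G.Adj (u j) (x j))
    (h3 : ∀ j, G.Adj (x j) w) (a b : Fin 2) (ha : f v = Sum.inl a) (hb : f w = Sum.inl b) :
    a ≠ b := by
  classical
  set S := univ.filter fun j => ∃ i, f (u j) = Sum.inr i with hS
  set T := univ.filter fun j => ∃ i, f (x j) = Sum.inr i with hT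
  have hSc : S.card ≤ c := h.load u hu v h1 S fun i hi => (mem_filter.mp hi).2
  have hTc : T.card ≤ c := h.load x hx w h3 T fun i hi => (mem_filter.mp hi).2
  have h4 : ∃ j, j ∉ S ∪ T := by
    by_contra hcon
    push Not at hcon
    have h5 : (univ : Finset (Fin (2 * c + 1))) ⊆ S ∪ T := fun j _ => hcon j
    have h6 := (card_le_card h5).trans (card_union_le _ _)
    rw [card_univ, Fintype.card_fin] at h6
    omega
  obtain ⟨j, hj⟩ := h4
  rw [mem_union, not_or] at hj
  obtain ⟨hj1, hj2⟩ := hj
  have h5 : ∃ p, f (u j) = Sum.inl p := by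
    rcases hf : f (u j) with p | p
    · exact ⟨p, rfl⟩
    · exact absurd (mem_filter.mpr ⟨mem_univ _, p, hf⟩) hj1
  have h6 : ∃ q, f (x j) = Sum.inl q := by
    rcases hf : f (x j) with q | q
    · exact ⟨q, rfl⟩
    · exact absurd (mem_filter.mpr ⟨mem_univ _, q, hf⟩) hj2
  obtain ⟨p, hp⟩ := h5
  obtain ⟨q, hq⟩ := h6
  have e1 : p ≠ a := fun h' => h.1 (u j) v a (h1 j) (h' ▸ hp) ha
  have e2 : p ≠ q := fun h' => h.1 (u j) (x j) q (h2 j) (h' ▸ hp) hq
  have e3 : q ≠ b := fun h' => h.1 (x j) w b (h3 j) (h' ▸ hq) hb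
  intro hab
  subst hab
  have := p.isLt
  have := q.isLt
  have := a.isLt
  have e1' : p.val ≠ a.val := fun h' => e1 (Fin.ext h')
  have e2' : p.val ≠ q.val := fun h' => e2 (Fin.ext h')
  have e3' : q.val ≠ a.val := fun h' => e3 (Fin.ext h')
  omega

end Weak

/-! ### Short cycles -/

section Girth

variable {V : Type}

/-- No cycles of length three and four. -/
def NoShort (G : SimpleGraph V) : Prop :=
  (∀ a b c, G.Adj a b → G.Adj b c → G.Adj c a → False) ∧
  ∀ a b c d, G.Adj a b → G.Adj b c → G.Adj c d → G.Adj d a → a ≠ c → b ≠ d → False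

/-- No cycles of length five. -/
def NoFive (G : SimpleGraph V) : Prop :=
  ∀ a b c d e, G.Adj a b → G.Adj b c → G.Adj c d → G.Adj d e → G.Adj e a → a ≠ c → b ≠ d →
    c ≠ e → d ≠ a → e ≠ b → False

lemma egirth_five {G : SimpleGraph V} (h : NoShort G) : (5 : ℕ∞) ≤ G.egirth := by
  rw [SimpleGraph.le_egirth]
  intro a w hw
  by_contra hcon
  have h1 : w.length < 5 := by
    rw [not_le] at hcon
    exact_mod_cast hcon
  have h2 := hw.three_le_length
  cases w with
  | nil => simp at h2
  | cons h1a w1 =>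
    cases w1 with
    | nil => simp at h2
    | cons h2a w2 =>
      cases w2 with
      | nil => simp at h2
      | cons h3a w3 =>
        cases w3 with
        | nil => exact h.1 _ _ _ h1a h2a h3a
        | cons h4a w4 =>
          cases w4 with
          | nil =>
            have h5 := hw.support_nodup
            simp at h5
            refine h.2 _ _ _ _ h1a h2a h3a h4a ?_ ?_
            · tauto
            · tauto
          | cons h5a w5 => simp at h1; omega

lemma egirth_six {G : SimpleGraph V} (h : NoShort G) (h' : NoFive G) : (6 : ℕ∞) ≤ G.egirth := by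
  rw [SimpleGraph.le_egirth]
  intro a w hw
  by_contra hcon
  have h1 : w.length < 6 := by
    rw [not_le] at hcon
    exact_mod_cast hcon
  have h2 := hw.three_le_length
  cases w with
  | nil => simp at h2
  | cons h1a w1 =>
    cases w1 with
    | nil => simp at h2
    | cons h2a w2 =>
      cases w2 with
      | nil => simp at h2
      | cons h3a w3 =>
        cases w3 with
        | nil => exact h.1 _ _ _ h1a h2a h3a
        | cons h4a w4 =>
          cases w4 with
          | nil =>
            have h5 := hw.support_nodup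
            simp at h5
            refine h.2 _ _ _ _ h1a h2a h3a h4a ?_ ?_
            · tauto
            · tauto
          | cons h5a w5 =>
            cases w5 with
            | nil =>
              have h5 := hw.support_nodup
              simp at h5
              refine h' _ _ _ _ _ h1a h2a h3a h4a h5a ?_ ?_ ?_ ?_ ?_
              · tauto
              · tauto
              · tauto
              · tauto
              · tauto
            | cons h6a w6 => simp at h1; omega

end Girth

/-! ### Adding isolated vertices -/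

section Pad

variable {V : Type}

/-- `G` with `k` isolated vertices added. -/
def pad (G : SimpleGraph V) (k : ℕ) : SimpleGraph (V ⊕ Fin k) where
  Adj a b := match a, b with
    | Sum.inl u, Sum.inl v => G.Adj u v
    | _, _ => False
  symm := ⟨by
    rintro (a | a) (b | b) h
    · exact G.adj_symm h
    · exact h
    · exact h
    · exact h⟩
  loopless := ⟨by
    rintro (a | a) h
    · exact G.loopless.irrefl a h
    · exact h⟩

lemma pad_adj {G : SimpleGraph V} {k : ℕ} {a b : V ⊕ Fin k} (h : (pad G k).Adj a b) :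
    ∃ u v, a = Sum.inl u ∧ b = Sum.inl v ∧ G.Adj u v := by
  rcases a with a | a <;> rcases b with b | b
  · exact ⟨a, b, rfl, rfl, h⟩
  · exact absurd h id
  · exact absurd h id
  · exact absurd h id

lemma noShort_pad {G : SimpleGraph V} (k : ℕ) (h : NoShort G) : NoShort (pad G k) := by
  refine ⟨?_, ?_⟩
  · intro a b c h1 h2 h3
    obtain ⟨a, b, rfl, rfl, h1⟩ := pad_adj h1
    obtain ⟨b', c, hb, rfl, h2⟩ := pad_adj h2
    obtain ⟨c', a', hc, ha, h3⟩ := pad_adj h3
    cases hb; cases hc; cases ha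
    exact h.1 _ _ _ h1 h2 h3
  · intro a b c d h1 h2 h3 h4 hac hbd
    obtain ⟨a, b, rfl, rfl, h1⟩ := pad_adj h1
    obtain ⟨b', c, hb, rfl, h2⟩ := pad_adj h2
    obtain ⟨c', d, hc, rfl, h3⟩ := pad_adj h3
    obtain ⟨d', a', hd, ha, h4⟩ := pad_adj h4
    cases hb; cases hc; cases ha; cases hd
    exact h.2 _ _ _ _ h1 h2 h3 h4 (fun e => hac (by rw [e])) (fun e => hbd (by rw [e]))

lemma noFive_pad {G : SimpleGraph V} (k : ℕ) (h : NoFive G) : NoFive (pad G k) := by
  intro a b c d e h1 h2 h3 h4 h5 p1 p2 p3 p4 p5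
  obtain ⟨a, b, rfl, rfl, h1⟩ := pad_adj h1
  obtain ⟨b', c, hb, rfl, h2⟩ := pad_adj h2
  obtain ⟨c', d, hc, rfl, h3⟩ := pad_adj h3
  obtain ⟨d', e, hd, rfl, h4⟩ := pad_adj h4
  obtain ⟨e', a', he, ha, h5⟩ := pad_adj h5
  cases hb; cases hc; cases ha; cases hd; cases he
  exact h _ _ _ _ _ h1 h2 h3 h4 h5 (fun e => p1 (by rw [e])) (fun e => p2 (by rw [e]))
    (fun e => p3 (by rw [e])) (fun e => p4 (by rw [e])) (fun e => p5 (by rw [e]))

/-- A two-page book embedding. -/
def HasBook (G : SimpleGraph V) : Prop :=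
  ∃ κ : V → ℕ × ℕ × ℕ, Function.Injective κ ∧ ∃ up : V → V → Prop, (∀ a b, up a b ↔ up b a) ∧
    ∀ a b c d, G.Adj a b → G.Adj c d → (up a b ↔ up c d) → lt3 (κ a) (κ c) → lt3 (κ c) (κ b) →
      lt3 (κ b) (κ d) → False

lemma isPlanar_of_hasBook [Fintype V] {G : SimpleGraph V} (h : HasBook G) : IsPlanar G := by
  obtain ⟨κ, hκ, up, hup, h⟩ := h
  exact isPlanar_of_book G κ hκ up hup h

lemma hasBook_pad {G : SimpleGraph V} (k : ℕ) (h : HasBook G) : HasBook (pad G k) := by
  obtain ⟨κ, hκ, up, hup, h⟩ := h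
  refine ⟨fun v => match v with
    | Sum.inl v => ((κ v).1 + 1, (κ v).2)
    | Sum.inr i => (0, i.val, 0), ?_, fun a b => match a, b with
    | Sum.inl u, Sum.inl v => up u v
    | _, _ => True, ?_, ?_⟩
  · rintro (a | a) (b | b) hab
    · simp only [Prod.mk.injEq, add_left_inj] at hab
      have : κ a = κ b := Prod.ext hab.1 hab.2
      rw [hκ this]
    · simp at hab
    · simp at hab
    · simp only [Prod.mk.injEq, true_and, and_true] at hab
      rw [Fin.ext hab]
  · rintro (a | a) (b | b)
    · exact hup a b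
    · exact Iff.rfl
    · exact Iff.rfl
    · exact Iff.rfl
  · intro a b c d h1 h2 hu h3 h4 h5
    obtain ⟨a, b, rfl, rfl, h1⟩ := pad_adj h1
    obtain ⟨c, d, rfl, rfl, h2⟩ := pad_adj h2
    refine h a b c d h1 h2 hu ?_ ?_ ?_
    · simp only [lt3, add_lt_add_iff_right, add_left_inj] at h3 ⊢
      exact h3
    · simp only [lt3, add_lt_add_iff_right, add_left_inj] at h4 ⊢
      exact h4
    · simp only [lt3, add_lt_add_iff_right, add_left_inj] at h5 ⊢
      exact h5

lemma weak_pad {G : SimpleGraph V} {k c : ℕ} (h : ∃ f, Weak (pad G k) c f) : ∃ f, Weak G c f := by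
  obtain ⟨f, h1, h2⟩ := h
  refine ⟨fun v => f (Sum.inl v), fun u v i huv => h1 (Sum.inl u) (Sum.inl v) i huv, ?_⟩
  intro u v w j huv huw hvw
  exact h2 (Sum.inl u) (Sum.inl v) (Sum.inl w) j (fun e => huv (Sum.inl_injective e)) huw hvw

end Pad

/-! ### Lower bounds for `exk` -/

/-- A graph without a weak colouring gives a lower bound for all larger numbers of vertices. -/
lemma lt_exk {V : Type} [Fintype V] (G : SimpleGraph V) (g c n : ℕ) (hn : Fintype.card V ≤ n)
    (hbook : HasBook G) (hg : ∀ k, (g : ℕ∞) ≤ (pad G k).egirth) (hno : ¬ ∃ f, Weak G c f) :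
    c < exk 2 g n := by
  classical
  by_contra hcon
  push Not at hcon
  have hne : {c | ∀ (V : Type) [Fintype V], Fintype.card V = n → ∀ G : SimpleGraph V,
      IsPlanar G → (g : ℕ∞) ≤ G.egirth → Colourable G 2 c}.Nonempty := by
    refine ⟨n, fun V _ hV G _ _ => ?_⟩
    refine ⟨fun v => Sum.inr (Fintype.equivFinOfCardEq hV v), ?_, ?_⟩
    · intro i u hu
      simp at hu
    · intro j u hu v hv huv
      exfalso
      apply huv
      have h1 : Fintype.equivFinOfCardEq hV u = j := Sum.inr_injective hu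
      have h2 : Fintype.equivFinOfCardEq hV v = j := Sum.inr_injective hv
      exact (Fintype.equivFinOfCardEq hV).injective (h1.trans h2.symm)
  have hmem := Nat.sInf_mem hne
  have hcard : Fintype.card (V ⊕ Fin (n - Fintype.card V)) = n := by
    rw [Fintype.card_sum, Fintype.card_fin]
    omega
  have h1 := hmem (V ⊕ Fin (n - Fintype.card V)) hcard (pad G _)
    (isPlanar_of_hasBook (hasBook_pad _ hbook)) (hg _)
  obtain ⟨f, hf⟩ := weak_of_colourable _ _ h1
  obtain ⟨f', hf'⟩ := hf.mono hcon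
  exact hno (weak_pad ⟨f', hf'⟩)

/-- From a bound along a polynomial sequence to an asymptotic bound. -/
lemma isBigO_of_bound (p K : ℕ) (hp : 0 < p) (hK : 0 < K) (e : ℕ → ℕ)
    (h : ∀ m n, 0 < m → K * m ^ p ≤ n → m ≤ e n) :
    (fun n : ℕ => (n : ℝ) ^ ((1 : ℝ) / p)) =O[Filter.atTop] fun n : ℕ => (e n : ℝ) := by
  have hp' : (0 : ℝ) < p := by exact_mod_cast hp
  have hK' : (0 : ℝ) < K := by exact_mod_cast hK
  refine Asymptotics.IsBigO.of_bound (2 * (K : ℝ) ^ ((1 : ℝ) / p)) ?_
  filter_upwards [Filter.eventually_ge_atTop K] with n hn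
  have hn' : (K : ℝ) ≤ n := by exact_mod_cast hn
  have hn0 : (0 : ℝ) < n := lt_of_lt_of_le hK' hn'
  set x : ℝ := ((n : ℝ) / K) ^ ((1 : ℝ) / p) with hx
  have hx1 : 1 ≤ x := by
    apply Real.one_le_rpow
    · rw [le_div_iff₀ hK']
      linarith
    · positivity
  set m := ⌊x⌋₊ with hm
  have hm1 : 1 ≤ m := by
    rw [hm]
    exact Nat.le_floor (by exact_mod_cast hx1)
  have hmx : (m : ℝ) ≤ x := Nat.floor_le (by linarith)
  have hxm : x < m + 1 := Nat.lt_floor_add_one x
  have h1 : K * m ^ p ≤ n := by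
    have h2 : (m : ℝ) ^ p ≤ (n : ℝ) / K := by
      calc (m : ℝ) ^ p ≤ x ^ p := pow_le_pow_left₀ (by positivity) hmx p
        _ = (n : ℝ) / K := by
            rw [hx, one_div]
            exact Real.rpow_inv_natCast_pow (by positivity) hp.ne'
    have h3 : (K : ℝ) * (m : ℝ) ^ p ≤ n := by
      rw [le_div_iff₀ hK'] at h2
      linarith
    exact_mod_cast h3
  have h4 := h m n hm1 h1
  have h5 : (m : ℝ) ≤ e n := by exact_mod_cast h4
  have h6 : (n : ℝ) ^ ((1 : ℝ) / p) = (K : ℝ) ^ ((1 : ℝ) / p) * x := by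
    rw [hx, ← Real.mul_rpow hK'.le (by positivity)]
    congr 1
    field_simp
  have hm1' : (1 : ℝ) ≤ m := by exact_mod_cast hm1
  rw [Real.norm_of_nonneg (by positivity), Real.norm_of_nonneg (by positivity), h6]
  have h7 : x ≤ 2 * (e n : ℝ) := by linarith
  calc (K : ℝ) ^ ((1 : ℝ) / p) * x ≤ (K : ℝ) ^ ((1 : ℝ) / p) * (2 * e n) := by gcongr
    _ = _ := by ring

/-- A larger power is not bounded by a smaller one. -/
lemma not_isBigO (a b : ℝ) (hab : b < a) (e : ℕ → ℝ)
    (h : (fun n : ℕ => (n : ℝ) ^ a) =O[Filter.atTop] e) :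
    ¬ e =O[Filter.atTop] fun n : ℕ => (n : ℝ) ^ b := by
  intro h'
  obtain ⟨C, hC⟩ := (h.trans h').bound
  have h1 : Filter.Tendsto (fun n : ℕ => (n : ℝ) ^ (a - b)) Filter.atTop Filter.atTop :=
    (tendsto_rpow_atTop (by linarith)).comp tendsto_natCast_atTop_atTop
  have h2 := h1.eventually_gt_atTop C
  obtain ⟨n, hn1, hn2, hn3⟩ := (hC.and (h2.and (Filter.eventually_gt_atTop 0))).exists
  have hn0 : (0 : ℝ) < n := by exact_mod_cast hn3
  rw [Real.norm_of_nonneg (by positivity), Real.norm_of_nonneg (by positivity)] at hn1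
  have h3 : (n : ℝ) ^ a = (n : ℝ) ^ (a - b) * (n : ℝ) ^ b := by
    rw [← Real.rpow_add hn0]
    congr 1
    ring
  rw [h3] at hn1
  have h4 : (0 : ℝ) < (n : ℝ) ^ b := by positivity
  have h5 := le_of_mul_le_mul_right hn1 h4
  linarith

end Pool.Agent.V11135
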